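import Pool.Agent.W670.ML.Defs2

/-!
Project ML2, part FN: from the bound of the powers to the strong uniform bound.
-/

set_option autoImplicit false

namespace Pool.Agent.W478.ML2.FN

open NumberField
open Pool.Agent.W670.ML

theorem real_root {c D X N A B ε a : ℝ} {r : ℕ} (hr : 1 ≤ r) (hc : 0 < c) (hD : 1 ≤ D)
    (hX : 1 ≤ X) (hN : 0 ≤ N) (h : N ^ r ≤ c * D ^ A * X ^ B) (hA : A / r ≤ ε)
    (hB : B / r ≤ a) : N ≤ c ^ (1 / (r : ℝ)) * D ^ ε * X ^ a := by
  have hr0 : (r : ℝ) ≠ 0 := by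
    have : r ≠ 0 := by omega
    exact_mod_cast this
  have hD0 : 0 ≤ D := by linarith
  have hX0 : 0 ≤ X := by linarith
  have h1 : N = (N ^ r) ^ (1 / (r : ℝ)) := by
    rw [← Real.rpow_natCast N r, ← Real.rpow_mul hN, mul_one_div_cancel hr0, Real.rpow_one]
  have h2 : (N ^ r) ^ (1 / (r : ℝ)) ≤ (c * D ^ A * X ^ B) ^ (1 / (r : ℝ)) :=
    Real.rpow_le_rpow (by positivity) h (by positivity)
  have h3 : (c * D ^ A * X ^ B) ^ (1 / (r : ℝ)) =
      c ^ (1 / (r : ℝ)) * D ^ (A / r) * X ^ (B / r) := by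
    rw [Real.mul_rpow (by positivity) (by positivity), Real.mul_rpow (by positivity)
      (by positivity), ← Real.rpow_mul hD0, ← Real.rpow_mul hX0, mul_one_div, mul_one_div]
  rw [h3] at h2
  rw [h1]
  refine h2.trans ?_
  have h4 : D ^ (A / r) ≤ D ^ ε := Real.rpow_le_rpow_of_exponent_le hD hA
  have h5 : X ^ (B / r) ≤ X ^ a := Real.rpow_le_rpow_of_exponent_le hX hB
  gcongr

theorem fn (h1 : S_MI) (h2 : S_DI) : S_FN := by
  intro hP d n G hn hG m hm ε hε
  obtain ⟨hm1, -, -⟩ := (h1 n G hn hG).2 m hm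
  have hm0 : (0 : ℝ) < m := by exact_mod_cast hm1
  have hn0 : (0 : ℝ) < n := by
    have : 0 < n := by omega
    exact_mod_cast this
  set r : ℕ := ⌈2 * (n : ℝ) / (m * ε)⌉₊ + 1 with hr
  have hr1 : 1 ≤ r := by omega
  have hr1' : (1 : ℝ) ≤ r := by exact_mod_cast hr1
  have hr2 : 2 * (n : ℝ) / (m * ε) ≤ r := by
    have := Nat.le_ceil (2 * (n : ℝ) / (m * ε))
    rw [hr]
    push_cast
    linarith
  have hnr : (0 : ℝ) < (n : ℝ) ^ r := by positivity
  set δ : ℝ := ε / (2 * (n : ℝ) ^ r) with hδ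
  have hδ0 : 0 < δ := by positivity
  have hδ1 : (n : ℝ) ^ r * δ = ε / 2 := by
    rw [hδ]
    field_simp
  obtain ⟨c, hc, hcK⟩ := hP d n m r G hn hr1 hG hm δ hδ0
  refine ⟨c ^ (1 / (r : ℝ)), by positivity, ?_⟩
  intro K _ _ hK X hX
  have hD : (1 : ℝ) ≤ ((discr K).natAbs : ℝ) := by
    have : 1 ≤ (discr K).natAbs := Int.natAbs_pos.2 (discr_ne_zero K)
    exact_mod_cast this
  rcases lt_or_ge X 1 with hX1 | hX1
  · have hempty : fields K n G X = ∅ := by
      rw [Set.eq_empty_iff_forall_notMem]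
      rintro L ⟨-, hL, hL2⟩
      have h3 := h2.2.2 K L
      have h4 : (1 : ℝ) ≤ (relDisc K L : ℝ) := by exact_mod_cast h3
      linarith
    have hN0 : N K n G X = 0 := by
      unfold N
      rw [hempty, Set.ncard_empty]
    rw [hN0, Nat.cast_zero]
    positivity
  · have h3 := hcK K hK X hX1
    refine real_root hr1 hc hD hX1 (Nat.cast_nonneg _) h3 ?_ ?_
    · rw [hδ1, add_div]
      have h4 : (n : ℝ) / m / r ≤ ε / 2 := by
        rw [div_div, div_le_iff₀ (by positivity)]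
        rw [div_le_iff₀ (by positivity)] at hr2
        linarith
      have h5 : ε / 2 / r ≤ ε / 2 := div_le_self (by positivity) hr1'
      linarith
    · have h4 : ((r : ℝ) / m + r * (n : ℝ) ^ r * δ) / r = 1 / m + ε / 2 := by
        rw [mul_assoc, hδ1]
        field_simp
      rw [h4]
      linarith

end Pool.Agent.W478.ML2.FN
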